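import Mathlib

namespace Pool.Agent.H.MP_a8e783_an

open Set Metric

universe u

/-- numerical radius -/
noncomputable def numRad {X : Type u} [NormedAddCommGroup X] [NormedSpace ℝ X]
    (T : X →L[ℝ] X) : ℝ :=
  sSup {r | ∃ (x : X) (f : X →L[ℝ] ℝ), ‖x‖ = 1 ∧ ‖f‖ = 1 ∧ f x = 1 ∧ r = |f (T x)|}

/-- the constants whose maximum is the second numerical index -/
def K (X : Type u) [NormedAddCommGroup X] [NormedSpace ℝ X] : Set ℝ :=
  {k | 0 ≤ k ∧ ∀ T : X →L[ℝ] X, k * infDist T {S : X →L[ℝ] X | numRad S = 0} ≤ numRad T}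

section
variable {X : Type u} [NormedAddCommGroup X] [NormedSpace ℝ X]

theorem le_numRad (T : X →L[ℝ] X) (x : X) (f : X →L[ℝ] ℝ) (hx : ‖x‖ = 1) (hf : ‖f‖ = 1)
    (h : f x = 1) : |f (T x)| ≤ numRad T := by
  refine le_csSup ⟨‖T‖, ?_⟩ ⟨x, f, hx, hf, h, rfl⟩
  rintro _ ⟨x, f, hx, hf, -, rfl⟩
  have a := f.le_opNorm (T x)
  have b := T.le_opNorm x
  rw [hf, one_mul, Real.norm_eq_abs] at a
  rw [hx, mul_one] at b
  exact a.trans b

theorem numRad_le (T : X →L[ℝ] X) (c : ℝ) (c0 : 0 ≤ c)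
    (h : ∀ (x : X) (f : X →L[ℝ] ℝ), ‖x‖ = 1 → ‖f‖ = 1 → f x = 1 → |f (T x)| ≤ c) :
    numRad T ≤ c := by
  refine Real.sSup_le ?_ c0
  rintro _ ⟨x, f, hx, hf, h1, rfl⟩
  exact h x f hx hf h1

theorem numRad_nonneg (T : X →L[ℝ] X) : 0 ≤ numRad T := by
  refine Real.sSup_nonneg ?_
  rintro _ ⟨x, f, -, -, -, rfl⟩
  exact abs_nonneg _

theorem zero_mem : (0 : X →L[ℝ] X) ∈ {S : X →L[ℝ] X | numRad S = 0} :=
  le_antisymm (numRad_le _ _ le_rfl fun x f _ _ _ => by simp) (numRad_nonneg _)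

theorem K_greatest [Nontrivial X] : IsGreatest (K X) (sSup (K X)) := by
  have hb : BddAbove (K X) := by
    refine ⟨1, fun k hk => ?_⟩
    obtain ⟨x, hx⟩ := exists_norm_eq X zero_le_one
    obtain ⟨f, hf, hfx⟩ := exists_dual_vector ℝ x (by simp [hx])
    have hfx' : f x = 1 := by simpa [hx] using hfx
    have h1 : 1 ≤ infDist (1 : X →L[ℝ] X) {S : X →L[ℝ] X | numRad S = 0} := by
      refine (le_infDist ⟨0, zero_mem⟩).2 fun S hS => ?_
      have a := le_numRad S x f hx hf hfx'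
      rw [show numRad S = 0 from hS, abs_nonpos_iff] at a
      have b := f.le_opNorm (((1 : X →L[ℝ] X) - S) x)
      have c := ((1 : X →L[ℝ] X) - S).le_opNorm x
      rw [hx, mul_one] at c
      rw [hf, one_mul] at b
      have d : f (((1 : X →L[ℝ] X) - S) x) = 1 := by simp [a, hfx']
      rw [d, norm_one] at b
      rw [dist_eq_norm]
      exact b.trans c
    have h2 : numRad (1 : X →L[ℝ] X) ≤ 1 :=
      numRad_le _ _ zero_le_one fun y g _ _ h => by simp [h]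
    have h3 := hk.2 1
    nlinarith [hk.1]
  have hc : IsClosed (K X) := by
    have : K X = Ici 0 ∩ ⋂ T : X →L[ℝ] X,
        {k | k * infDist T {S : X →L[ℝ] X | numRad S = 0} ≤ numRad T} := by
      ext k; simp [K]
    rw [this]
    exact isClosed_Ici.inter (isClosed_iInter fun T => isClosed_le (by fun_prop) continuous_const)
  have hn : (K X).Nonempty := ⟨0, le_rfl, fun T => by simpa using numRad_nonneg T⟩
  exact ⟨hc.csSup_mem hn hb, fun k hk => le_csSup hb hk⟩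

theorem le_numRad' (T : X →L[ℝ] X) (x : X) (f : X →L[ℝ] ℝ) (hx : ‖x‖ ≤ 1) (hf : ‖f‖ ≤ 1)
    (h : f x = 1) : |f (T x)| ≤ numRad T := by
  have a := f.le_opNorm x
  rw [h, norm_one] at a
  have x0 := norm_nonneg x
  have f0 := norm_nonneg f
  exact le_numRad T x f (by nlinarith) (by nlinarith) h

end

end Pool.Agent.H.MP_a8e783_an
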