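import Pool.Agent.H.MP_a8e783_an.Space

namespace Pool.Agent.H.MP_a8e783_an

open Filter Topology Metric

noncomputable def U : ℂ →L[ℝ] X :=
  Complex.reCLM.smulRight (u 1) + Complex.imCLM.smulRight (u Complex.I)

theorem U_apply (h : ℂ) : U h = u h := (u_eq h).symm

noncomputable def T : X →L[ℝ] X := U ∘L (Complex.I • π)

theorem T_apply (z : X) : T z = u (Complex.I * π z) := U_apply _

theorem norm_rot (h : ℂ) (t : ℝ) : ‖h + t • (Complex.I * h)‖ ≤ (1 + t ^ 2) * ‖h‖ := by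
  have e : h + t • (Complex.I * h) = (1 + t * Complex.I) * h := by
    rw [Complex.real_smul]; ring
  rw [e, norm_mul]
  refine mul_le_mul_of_nonneg_right ?_ (norm_nonneg _)
  refine abs_le_of_sq_le_sq' ?_ (by positivity) |>.2
  rw [Complex.sq_norm, Complex.normSq_apply]
  simp
  nlinarith [sq_nonneg t, sq_nonneg (t ^ 2)]

theorem T_rad : numRad T ≤ 1 / 10 := by
  refine numRad_le _ _ (by norm_num) fun z f hz hf h => ?_
  have H : ∀ t : ℝ, t ^ 2 = 1 / 100 → 1 + t * f (T z) ≤ 1 + 1 / 100 := fun t ht => by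
    have a : ‖z + t • T z‖ ≤ 1 + 1 / 100 := by
      have p1 := (π_le z).trans hz.le
      refine norm_le' _ _ (fun n => ?_) ?_
      · have d := (δ_le n z).trans hz.le
        have i := (Complex.abs_im_le_norm (π z)).trans p1
        have t1 : |t| ≤ 1 / 10 := abs_le_of_sq_le_sq' (by rw [ht]; norm_num) (by norm_num) |> abs_le.2
        have m : |t * (π z).im| ≤ 1 / 10 := by
          rw [abs_mul]; nlinarith [abs_nonneg t, abs_nonneg (π z).im]
        simp only [map_add, map_smul, T_apply, δ_u, smul_eq_mul, Complex.mul_re, Complex.I_re,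
          Complex.I_im]
        rw [abs_le] at *
        constructor <;> nlinarith [d.1, d.2, m.1, m.2]
      · rw [map_add, map_smul, T_apply, π_u]
        refine (norm_rot _ _).trans ?_
        rw [ht]; nlinarith
    have b := f.le_of_opNorm_le_of_le hf.le a
    rw [map_add, map_smul, h, one_mul] at b
    exact (le_abs_self _).trans b
  have a := H (1 / 10) (by norm_num)
  have b := H (-1 / 10) (by norm_num)
  rw [abs_le]
  constructor <;> linarith

theorem T_dist : 1 ≤ infDist T {S : X →L[ℝ] X | numRad S = 0} := by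
  refine (le_infDist ⟨0, zero_mem⟩).2 fun S hS => ?_
  have n1 : ‖u (-Complex.I)‖ ≤ 1 := norm_le' _ _ (fun n => by simp) (by simp)
  have h1 : ∀ n, δ n (S (u (-Complex.I))) = 0 := fun n => by
    refine abs_nonpos_iff.1 (face (δ n ∘L S) n 0 (fun z hz h => ?_) _ n1)
    exact (le_numRad' S z (δ n) hz (δ_norm n) h).trans (le_of_eq hS)
  have h2 : (π (S (u (-Complex.I)))).re = 0 := by
    have := lim (S (u (-Complex.I)))
    simp only [h1] at this
    have := tendsto_nhds_unique this tendsto_const_nhds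
    linarith
  have a := (T - S).le_of_opNorm_le_of_le le_rfl n1
  have b := (Complex.abs_re_le_norm _).trans (π_le ((T - S) (u (-Complex.I))))
  rw [dist_eq_norm]
  simp only [sub_apply, map_sub, Complex.sub_re, h2, T_apply, π_u] at a b
  simp at a b
  linarith

theorem K_le : ∀ k ∈ K X, k ≤ 1 / 10 := fun k hk => by
  have := hk.2 T
  nlinarith [T_rad, T_dist, hk.1]

noncomputable def S (c : ℝ) : (X →L[ℝ] ℝ) →L[ℝ] (X →L[ℝ] ℝ) :=
  c • (p.smulRight ι - q.smulRight ρ)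

theorem S_apply (c : ℝ) (φ : X →L[ℝ] ℝ) : S c φ = c • (p φ • ι - q φ • ρ) := rfl

theorem α_norm (φ : X →L[ℝ] ℝ) : ‖φ - (p φ • ρ + q φ • ι)‖ ≤ ∑' n, |φ (e n)| :=
  (hasSum_δ φ).norm_le_of_bounded (summable_abs φ).hasSum fun n => by
    rw [norm_smul]
    exact mul_le_of_le_one_right (abs_nonneg _) (δ_norm n)

theorem S_rad (c : ℝ) : numRad (S c) = 0 := by
  refine le_antisymm (numRad_le _ _ le_rfl fun φ g hφ hg h => ?_) (numRad_nonneg _)
  have H : ∀ t : ℝ, t * g (S c φ) ≤ (t * c) ^ 2 := fun t => by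
    have a : ‖φ + t • S c φ‖ ≤ 1 + (t * c) ^ 2 := by
      have e1 : φ + t • S c φ = (φ - (p φ • ρ + q φ • ι)) +
          ((p φ - t * c * q φ) • ρ + (q φ + t * c * p φ) • ι) := by
        rw [S_apply]; module
      have e2 : (⟨p φ - t * c * q φ, q φ + t * c * p φ⟩ : ℂ) =
          ⟨p φ, q φ⟩ + (t * c) • (Complex.I * ⟨p φ, q φ⟩) := by
        apply Complex.ext <;> (simp; try ring)
      have b1 := κ_norm (p φ - t * c * q φ) (q φ + t * c * p φ)
      rw [e2] at b1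
      have b2 := b1.trans (norm_rot _ _)
      have b3 := α_norm φ
      have b4 := norm_ge φ
      have b5 : 0 ≤ ∑' n, |φ (e n)| := tsum_nonneg fun _ => abs_nonneg _
      rw [e1]
      refine (norm_add_le _ _).trans ?_
      nlinarith [sq_nonneg (t * c)]
    have b := g.le_of_opNorm_le_of_le hg.le a
    rw [map_add, map_smul, h, one_mul] at b
    have := (le_abs_self _).trans b
    rw [smul_eq_mul] at this
    linarith
  have a := H (g (S c φ) / (c ^ 2 + 1))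
  generalize g (S c φ) = γ at *
  have c0 : 0 < c ^ 2 + 1 := by positivity
  have b : γ ^ 2 ≤ 0 := by
    field_simp at a
    nlinarith
  simpa using pow_eq_zero_iff two_ne_zero |>.1 (le_antisymm b (sq_nonneg _))

theorem p_δ (n : ℕ) : p (δ n) = 0 := by
  rw [p_apply, tsum_eq_single n fun m hm => by simp [hm.symm]]
  simp

theorem q_δ (n : ℕ) : q (δ n) = 0 := by simp [q_apply]

theorem p_ρ : p ρ = 1 := by simp [p_apply]
theorem q_ρ : q ρ = 0 := by simp [q_apply]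
theorem p_ι : p ι = 0 := by simp [p_apply]
theorem q_ι : q ι = 1 := by simp [q_apply]

theorem ev_le (R : (X →L[ℝ] ℝ) →L[ℝ] (X →L[ℝ] ℝ)) (φ : X →L[ℝ] ℝ) (z : X) (hφ : ‖φ‖ ≤ 1)
    (hz : ‖z‖ ≤ 1) (h : φ z = 1) : |R φ z| ≤ numRad R := by
  refine le_numRad' R φ (ContinuousLinearMap.apply ℝ ℝ z) hφ ?_ h
  refine ContinuousLinearMap.opNorm_le_bound _ zero_le_one fun ψ => ?_
  simpa [mul_comm] using ψ.le_of_opNorm_le_of_le le_rfl hz

theorem R_δ (R : (X →L[ℝ] ℝ) →L[ℝ] (X →L[ℝ] ℝ)) (n : ℕ) : ‖R (δ n)‖ ≤ numRad R :=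
  ContinuousLinearMap.opNorm_le_of_unit_norm (numRad_nonneg _) fun z hz =>
    face (R (δ n)) n _ (fun y hy h => ev_le R _ y (δ_norm n) hy h) z hz.le

theorem R_κ (R : (X →L[ℝ] ℝ) →L[ℝ] (X →L[ℝ] ℝ)) (a b : ℝ) (hab : a ^ 2 + b ^ 2 = 1) :
    ∑' n, |R (a • ρ + b • ι) (e n)| ≤ numRad R ∧
      |p (R (a • ρ + b • ι)) * a + q (R (a • ρ + b • ι)) * b| ≤ numRad R := by
  have n1 : ‖(⟨a, b⟩ : ℂ)‖ ≤ 1 := by
    refine abs_le_of_sq_le_sq' ?_ zero_le_one |>.2
    rw [Complex.sq_norm, Complex.normSq_apply]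
    simp only; linarith
  have H : ∀ z : X, π z = ⟨a, b⟩ → ‖z‖ ≤ 1 → |R (a • ρ + b • ι) z| ≤ numRad R := fun z h hz =>
    ev_le R _ z ((κ_norm a b).trans n1) hz (by simp [h]; linarith)
  have k1 := key (R (a • ρ + b • ι)) _ n1 _ fun z h hz => (le_abs_self _).trans (H z h hz)
  have k2 := key (-R (a • ρ + b • ι)) _ n1 (numRad R) fun z h hz =>
    (neg_le_abs _).trans (H z h hz)
  have b5 : 0 ≤ ∑' n, |R (a • ρ + b • ι) (e n)| := tsum_nonneg fun _ => abs_nonneg _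
  simp only [neg_apply, abs_neg, map_neg] at k1 k2
  exact ⟨by linarith, abs_le.2 ⟨by linarith, by linarith⟩⟩

theorem norm_mk (a b : ℝ) : ‖(⟨a, b⟩ : ℂ)‖ ≤ |a| + |b| := Complex.norm_le_abs_re_add_abs_im _

theorem mem_K : (1 / 9 : ℝ) ∈ K (X →L[ℝ] ℝ) := by
  refine ⟨by norm_num, fun R => ?_⟩
  have v0 := numRad_nonneg R
  set c := q (R ρ) with hc
  suffices ‖R - S c‖ ≤ 9 * numRad R by
    have a := infDist_le_dist_of_mem (x := R) (y := S c)
      (s := {S : (X →L[ℝ] ℝ) →L[ℝ] (X →L[ℝ] ℝ) | numRad S = 0}) (S_rad c)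
    have := a.trans_eq (dist_eq_norm R (S c))
    linarith
  obtain ⟨a1, a2⟩ := R_κ R 1 0 (by norm_num)
  obtain ⟨b1, b2⟩ := R_κ R 0 1 (by norm_num)
  obtain ⟨-, c2⟩ := R_κ R (3 / 5) (4 / 5) (by norm_num)
  simp only [one_smul, zero_smul, add_zero, zero_add, mul_one, mul_zero, map_add, map_smul,
    smul_eq_mul] at a1 a2 b1 b2 c2
  have h1 : ‖(R - S c) ρ‖ ≤ 2 * numRad R := by
    have e1 : (R - S c) ρ = (R ρ - (p (R ρ) • ρ + q (R ρ) • ι)) + (p (R ρ) • ρ + (0 : ℝ) • ι) := by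
      rw [sub_apply, S_apply, p_ρ, q_ρ, hc]; module
    have := α_norm (R ρ)
    have := (κ_norm (p (R ρ)) 0).trans (norm_mk _ _)
    rw [e1]
    refine (norm_add_le _ _).trans ?_
    rw [abs_zero] at this
    linarith
  have h2 : ‖(R - S c) ι‖ ≤ 7 * numRad R := by
    have e1 : (R - S c) ι = (R ι - (p (R ι) • ρ + q (R ι) • ι)) +
        ((p (R ι) + c) • ρ + q (R ι) • ι) := by
      rw [sub_apply, S_apply, p_ι, q_ι]; module
    have := α_norm (R ι)
    have := (κ_norm (p (R ι) + c) (q (R ι))).trans (norm_mk _ _)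
    have : |p (R ι) + c| ≤ 5 * numRad R := by
      rw [abs_le] at *
      constructor <;> linarith [a2.1, a2.2, b2.1, b2.2, c2.1, c2.2]
    rw [e1]
    refine (norm_add_le _ _).trans ?_
    linarith
  refine ContinuousLinearMap.opNorm_le_bound _ (by positivity) fun φ => ?_
  have h3 : ‖(R - S c) (φ - (p φ • ρ + q φ • ι))‖ ≤ numRad R * ∑' n, |φ (e n)| :=
    ((R - S c).hasSum (hasSum_δ φ)).norm_le_of_bounded
      ((summable_abs φ).hasSum.mul_left _) fun n => by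
        rw [map_smul, norm_smul, sub_apply, S_apply, p_δ, q_δ, mul_comm]
        simp only [zero_smul, sub_zero, smul_zero]
        exact mul_le_mul_of_nonneg_right (R_δ R n) (abs_nonneg _)
  have e1 : (R - S c) φ = (R - S c) (φ - (p φ • ρ + q φ • ι)) +
      (p φ • (R - S c) ρ + q φ • (R - S c) ι) := by
    rw [map_sub, map_add, map_smul, map_smul]; abel
  have b4 := norm_ge φ
  have b5 : 0 ≤ ∑' n, |φ (e n)| := tsum_nonneg fun _ => abs_nonneg _
  have b6 : |p φ| ≤ ‖(⟨p φ, q φ⟩ : ℂ)‖ := Complex.abs_re_le_norm ⟨p φ, q φ⟩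
  have b7 : |q φ| ≤ ‖(⟨p φ, q φ⟩ : ℂ)‖ := Complex.abs_im_le_norm ⟨p φ, q φ⟩
  have b8 : ‖p φ • (R - S c) ρ‖ ≤ ‖(⟨p φ, q φ⟩ : ℂ)‖ * (2 * numRad R) := by
    rw [norm_smul]; exact mul_le_mul b6 h1 (norm_nonneg _) (norm_nonneg _)
  have b9 : ‖q φ • (R - S c) ι‖ ≤ ‖(⟨p φ, q φ⟩ : ℂ)‖ * (7 * numRad R) := by
    rw [norm_smul]; exact mul_le_mul b7 h2 (norm_nonneg _) (norm_nonneg _)
  rw [e1]
  refine (norm_add_le _ _).trans ((add_le_add h3 (norm_add_le _ _)).trans ?_)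
  nlinarith [mul_nonneg v0 b5, mul_le_mul_of_nonneg_left b4 v0]

instance : Nontrivial X := ⟨u 1, u 0, fun h => by simpa using congrArg π h⟩

instance : Nontrivial (X →L[ℝ] ℝ) := ⟨ρ, ι, fun h => by simpa [p_ρ, p_ι] using congrArg p h⟩

theorem main : ∃ a b : ℝ, IsGreatest (K X) a ∧ IsGreatest (K (X →L[ℝ] ℝ)) b ∧ a < b :=
  ⟨_, _, K_greatest, K_greatest,
    (K_le _ K_greatest.1).trans_lt (lt_of_lt_of_le (by norm_num) (K_greatest.2 mem_K))⟩

end Pool.Agent.H.MP_a8e783_an
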