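import Pool.Agent.H.MP_a8e783_an.Rad

namespace Pool.Agent.H.MP_a8e783_an

open Filter Topology Finset BoundedContinuousFunction

def X₀ : Submodule ℝ ((ℕ →ᵇ ℝ) × ℂ) where
  carrier := {z | Tendsto z.1 atTop (𝓝 (z.2.re / 10))}
  add_mem' := fun {a b} ha hb => by
    have := Tendsto.add ha hb
    rw [← add_div] at this
    exact this
  zero_mem' := by
    show Tendsto (fun _ => (0 : ℝ)) atTop (𝓝 ((0 : ℂ).re / 10))
    simp
  smul_mem' := fun c a ha => by
    have := Tendsto.const_mul c ha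
    rw [← mul_div_assoc] at this
    show Tendsto (fun n => c * a.1 n) atTop (𝓝 ((c • a.2).re / 10))
    simpa using this

theorem X_closed : IsClosed (X₀ : Set ((ℕ →ᵇ ℝ) × ℂ)) := by
  refine isClosed_of_closure_subset fun z hz => ?_
  show Tendsto z.1 atTop (𝓝 (z.2.re / 10))
  rw [Metric.tendsto_atTop]
  intro ε hε
  obtain ⟨w, hw, hd⟩ := Metric.mem_closure_iff.1 hz (ε / 3) (by positivity)
  obtain ⟨N, hN⟩ := Metric.tendsto_atTop.1 hw (ε / 3) (by positivity)
  refine ⟨N, fun n hn => ?_⟩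
  have a := hN n hn
  rw [Prod.dist_eq, max_lt_iff] at hd
  have b := (dist_coe_le_dist n).trans_lt hd.1
  have c : |z.2.re - w.2.re| < ε / 3 := by
    have := Complex.abs_re_le_norm (z.2 - w.2)
    rw [Complex.sub_re, ← dist_eq_norm] at this
    exact this.trans_lt hd.2
  rw [Real.dist_eq, abs_lt] at *
  constructor <;> linarith [a.1, a.2, b.1, b.2, c.1, c.2]

def X : Type := X₀

noncomputable instance : NormedAddCommGroup X := inferInstanceAs (NormedAddCommGroup X₀)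

noncomputable instance : NormedSpace ℝ X := inferInstanceAs (NormedSpace ℝ X₀)

instance : CompleteSpace X := X_closed.completeSpace_coe

noncomputable def e (n : ℕ) : X :=
  ⟨(ofNormedAddCommGroupDiscrete (fun m => if m = n then 1 else 0) 1
    (fun m => by split_ifs <;> simp), 0), by
    show Tendsto (fun m => if m = n then (1 : ℝ) else 0) atTop (𝓝 ((0 : ℂ).re / 10))
    simp only [Complex.zero_re, zero_div]
    refine tendsto_const_nhds.congr' ?_
    filter_upwards [eventually_gt_atTop n] with m hm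
    rw [if_neg hm.ne']⟩

noncomputable def u (h : ℂ) : X := ⟨(const ℕ (h.re / 10), h), tendsto_const_nhds⟩

noncomputable def δ (n : ℕ) : X →L[ℝ] ℝ :=
  LinearMap.mkContinuous
    { toFun := fun z => z.1.1 n
      map_add' := fun _ _ => rfl
      map_smul' := fun _ _ => rfl } 1 fun z => by
    rw [one_mul]; exact (norm_coe_le_norm z.1.1 n).trans (norm_fst_le z.1)

noncomputable def π : X →L[ℝ] ℂ :=
  LinearMap.mkContinuous
    { toFun := fun z => z.1.2
      map_add' := fun _ _ => rfl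
      map_smul' := fun _ _ => rfl } 1 fun z => by
    rw [one_mul]; exact norm_snd_le z.1

noncomputable def ρ : X →L[ℝ] ℝ := Complex.reCLM ∘L π

noncomputable def ι : X →L[ℝ] ℝ := Complex.imCLM ∘L π

@[simp] theorem ρ_apply (z : X) : ρ z = (π z).re := rfl
@[simp] theorem ι_apply (z : X) : ι z = (π z).im := rfl
@[simp] theorem δ_e (n m : ℕ) : δ m (e n) = if m = n then 1 else 0 := rfl
@[simp] theorem π_e (n : ℕ) : π (e n) = 0 := rfl
@[simp] theorem δ_u (m : ℕ) (h : ℂ) : δ m (u h) = h.re / 10 := rfl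
@[simp] theorem π_u (h : ℂ) : π (u h) = h := rfl

theorem δ_le (n : ℕ) (z : X) : |δ n z| ≤ ‖z‖ :=
  (norm_coe_le_norm z.1.1 n).trans (norm_fst_le z.1)

theorem π_le (z : X) : ‖π z‖ ≤ ‖z‖ := norm_snd_le z.1

theorem norm_le' (z : X) (c : ℝ) (h1 : ∀ n, |δ n z| ≤ c) (h2 : ‖π z‖ ≤ c) : ‖z‖ ≤ c :=
  max_le ((norm_le ((abs_nonneg _).trans (h1 0))).2 h1) h2

theorem lim (z : X) : Tendsto (fun n => δ n z) atTop (𝓝 ((π z).re / 10)) := z.2

theorem ext' (z w : X) (h1 : ∀ n, δ n z = δ n w) (h2 : π z = π w) : z = w :=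
  Subtype.ext (Prod.ext (BoundedContinuousFunction.ext h1) h2)

theorem δ_norm (n : ℕ) : ‖δ n‖ ≤ 1 :=
  ContinuousLinearMap.opNorm_le_bound _ zero_le_one fun z => by simpa using δ_le n z

theorem κ_norm (a b : ℝ) : ‖a • ρ + b • ι‖ ≤ ‖(⟨a, b⟩ : ℂ)‖ := by
  refine ContinuousLinearMap.opNorm_le_bound _ (norm_nonneg _) fun z => ?_
  have h := Complex.abs_re_le_norm ((starRingEnd ℂ) ⟨a, b⟩ * π z)
  rw [norm_mul, Complex.norm_conj] at h
  refine le_trans (le_of_eq ?_) (h.trans (mul_le_mul_of_nonneg_left (π_le z) (norm_nonneg _)))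
  simp

noncomputable def w (N : ℕ) (s : ℕ → ℝ) (h : ℂ) : X :=
  u h + ∑ n ∈ range N, (s n - h.re / 10) • e n

theorem δ_w (N : ℕ) (s : ℕ → ℝ) (h : ℂ) (m : ℕ) :
    δ m (w N s h) = if m < N then s m else h.re / 10 := by
  simp only [w, map_add, map_sum, map_smul, δ_u, δ_e, smul_eq_mul, mul_ite, mul_one, mul_zero,
    sum_ite_eq, mem_range]
  split_ifs <;> ring

theorem π_w (N : ℕ) (s : ℕ → ℝ) (h : ℂ) : π (w N s h) = h := by
  simp [w]

theorem w_norm (N : ℕ) (s : ℕ → ℝ) (h : ℂ) (hs : ∀ n, |s n| ≤ 1) (hh : ‖h‖ ≤ 1) :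
    ‖w N s h‖ ≤ 1 := by
  refine norm_le' _ _ (fun n => ?_) (by rwa [π_w])
  rw [δ_w]
  split_ifs
  · exact hs n
  · have := Complex.abs_re_le_norm h
    rw [abs_le] at *
    constructor <;> linarith [this.1, this.2]

theorem u_eq (h : ℂ) : u h = h.re • u 1 + h.im • u Complex.I :=
  ext' _ _ (fun n => by simp; ring) (by simp)

theorem φ_w (φ : X →L[ℝ] ℝ) (N : ℕ) (s : ℕ → ℝ) (h : ℂ) :
    φ (w N s h) = h.re * φ (u 1) + h.im * φ (u Complex.I) + ∑ n ∈ range N, s n * φ (e n)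
      - h.re / 10 * ∑ n ∈ range N, φ (e n) := by
  rw [w, u_eq]
  simp only [map_add, map_sum, map_smul, smul_eq_mul, sub_mul, sum_sub_distrib, mul_sum]
  ring

theorem w_tendsto (z : X) : Tendsto (fun N => w N (fun n => δ n z) (π z)) atTop (𝓝 z) := by
  rw [Metric.tendsto_atTop]
  intro ε hε
  obtain ⟨N, hN⟩ := Metric.tendsto_atTop.1 (lim z) (ε / 2) (by positivity)
  refine ⟨N, fun M hM => lt_of_le_of_lt (b := ε / 2) ?_ (by linarith)⟩
  rw [dist_eq_norm]
  refine norm_le' _ _ (fun n => ?_) (by rw [map_sub, π_w]; simp; positivity)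
  rw [map_sub, δ_w]
  split_ifs with h
  · simp; positivity
  · rw [abs_sub_comm]
    exact (hN n (by omega)).le

theorem sum_le (φ : X →L[ℝ] ℝ) (N : ℕ) : ∑ n ∈ range N, |φ (e n)| ≤ ‖φ‖ := by
  have h := φ_w φ N (fun n => SignType.sign (φ (e n))) 0
  have a := φ.le_of_opNorm_le_of_le le_rfl (w_norm N (fun n => SignType.sign (φ (e n))) 0
    (fun n => by rcases lt_trichotomy (φ (e n)) 0 with h | h | h <;> simp [h]) (by simp))
  simp only [Complex.zero_re, Complex.zero_im, zero_mul, zero_div, zero_add, sub_zero,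
    sign_mul_self] at h
  rw [← h]
  exact (le_abs_self _).trans (by simpa using a)

theorem summable_abs (φ : X →L[ℝ] ℝ) : Summable fun n => |φ (e n)| :=
  summable_of_sum_range_le (fun _ => abs_nonneg _) (sum_le φ)

theorem summable' (φ : X →L[ℝ] ℝ) : Summable fun n => φ (e n) := (summable_abs φ).of_abs

noncomputable def σ : (X →L[ℝ] ℝ) →L[ℝ] ℝ :=
  LinearMap.mkContinuous
    { toFun := fun φ => ∑' n, φ (e n)
      map_add' := fun φ ψ => (summable' φ).tsum_add (summable' ψ)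
      map_smul' := fun c φ => tsum_mul_left } 1 fun φ => by
    rw [one_mul]
    exact (norm_tsum_le_tsum_norm (summable_abs φ)).trans
      (Real.tsum_le_of_sum_range_le (fun _ => abs_nonneg _) (sum_le φ))

noncomputable def p : (X →L[ℝ] ℝ) →L[ℝ] ℝ :=
  ContinuousLinearMap.apply ℝ ℝ (u 1) - (1 / 10 : ℝ) • σ

noncomputable def q : (X →L[ℝ] ℝ) →L[ℝ] ℝ := ContinuousLinearMap.apply ℝ ℝ (u Complex.I)

theorem p_apply (φ : X →L[ℝ] ℝ) : p φ = φ (u 1) - 1 / 10 * ∑' n, φ (e n) := rfl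

theorem q_apply (φ : X →L[ℝ] ℝ) : q φ = φ (u Complex.I) := rfl

theorem key (φ : X →L[ℝ] ℝ) (h : ℂ) (hh : ‖h‖ ≤ 1) (M : ℝ)
    (H : ∀ z : X, π z = h → ‖z‖ ≤ 1 → φ z ≤ M) :
    ∑' n, |φ (e n)| + (p φ * h.re + q φ * h.im) ≤ M := by
  have t := (((summable_abs φ).hasSum.tendsto_sum_nat.const_add
    (h.re * φ (u 1) + h.im * φ (u Complex.I))).sub
      ((summable' φ).hasSum.tendsto_sum_nat.const_mul (h.re / 10)))
  refine le_trans (le_of_eq ?_) (le_of_tendsto' t fun N => ?_)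
  · rw [p_apply, q_apply]; ring
  · have := H _ (π_w N (fun n => SignType.sign (φ (e n))) h) (w_norm N _ h
      (fun n => by rcases lt_trichotomy (φ (e n)) 0 with h | h | h <;> simp [h]) hh)
    rw [φ_w] at this
    simpa only [sign_mul_self] using this

theorem norm_ge (φ : X →L[ℝ] ℝ) : ∑' n, |φ (e n)| + ‖(⟨p φ, q φ⟩ : ℂ)‖ ≤ ‖φ‖ := by
  set k : ℂ := ⟨p φ, q φ⟩ with hk
  have a : ‖(‖k‖⁻¹ : ℝ) • k‖ ≤ 1 := by
    by_cases h : k = 0
    · simp [h]
    · exact (norm_smul_inv_norm h).le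
  refine le_trans (le_of_eq ?_) (key φ _ a _ fun z _ hz =>
    (le_abs_self _).trans (by simpa using φ.le_of_opNorm_le_of_le le_rfl hz))
  congr 1
  by_cases h : ‖k‖ = 0
  · simp [h]
  · have := Complex.sq_norm k
    rw [Complex.normSq_apply] at this
    simp only [Complex.smul_re, Complex.smul_im, smul_eq_mul]
    field_simp
    rw [this]

theorem summable_δ (φ : X →L[ℝ] ℝ) : Summable fun n => ‖φ (e n) • δ n‖ :=
  (summable_abs φ).of_nonneg_of_le (fun _ => norm_nonneg _) fun n => by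
    rw [norm_smul]
    exact mul_le_of_le_one_right (abs_nonneg _) (δ_norm n)

theorem hasSum_δ (φ : X →L[ℝ] ℝ) :
    HasSum (fun n => φ (e n) • δ n) (φ - (p φ • ρ + q φ • ι)) := by
  have s := (summable_δ φ).of_norm.hasSum
  suffices φ - (p φ • ρ + q φ • ι) = ∑' n, φ (e n) • δ n by rwa [this]
  ext z
  have a := ((ContinuousLinearMap.apply ℝ ℝ z).hasSum s).tendsto_sum_nat
  have t := ((a.const_add ((π z).re * φ (u 1) + (π z).im * φ (u Complex.I))).sub
      ((summable' φ).hasSum.tendsto_sum_nat.const_mul ((π z).re / 10)))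
  have b := (φ.continuous.tendsto z).comp (w_tendsto z)
  have c := tendsto_nhds_unique b (t.congr fun N => by
    simp [φ_w, mul_comm])
  simp only [_root_.sub_apply, _root_.add_apply, _root_.smul_apply, ρ_apply, ι_apply, smul_eq_mul, p_apply, q_apply, c,
    ContinuousLinearMap.apply_apply]
  ring

theorem face (ψ : X →L[ℝ] ℝ) (n : ℕ) (M : ℝ) (H : ∀ z : X, ‖z‖ ≤ 1 → δ n z = 1 → |ψ z| ≤ M)
    (z : X) (hz : ‖z‖ ≤ 1) : |ψ z| ≤ M := by
  have g : ∀ y : X, ‖y‖ ≤ 1 → |ψ y + (1 - δ n y) * ψ (e n)| ≤ M := fun y hy => by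
    have := H (y + (1 - δ n y) • e n) (norm_le' _ _ (fun m => ?_) ?_) (by simp)
    · simpa using this
    · by_cases h : m = n
      · simp [h]
      · simpa [h] using (δ_le m y).trans hy
    · simpa using (π_le y).trans hy
  have a := g z hz
  have b := g (-z) (by rwa [norm_neg])
  have c := (δ_le n z).trans hz
  simp only [map_neg] at b
  rw [abs_le] at *
  constructor <;> nlinarith [a.1, a.2, b.1, b.2, c.1, c.2]

end Pool.Agent.H.MP_a8e783_an
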